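import Pool.Agent.helper37.NG.Spec

set_option autoImplicit false

namespace Pool.Agent.helper37.NG

open Finset Pool.Agent.NK Pool.Agent.helper37.NF

/-- fast binomial coefficient -/
def SM3_ch (n k : ℕ) : ℕ := n.descFactorial k / k.factorial

theorem SM3_ch_eq (n k : ℕ) : SM3_ch n k = n.choose k :=
  (Nat.choose_eq_descFactorial_div_factorial n k).symm

/-- fast `MV` -/
def SM3_mv (n t : ℕ) : ℕ := ((n + 1) / t) * SM3_ch (n - (n + 1) / t) (t - 1)

theorem SM3_mv_eq (n t : ℕ) : SM3_mv n t = MV n t := by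
  unfold SM3_mv MV
  rw [SM3_ch_eq]

/-- the finite check, as a Boolean -/
def SM3_ok (t i n : ℕ) : Bool :=
  !(decide (2 ≤ i) && decide (i + 2 ≤ t) && decide (3 * t ≤ n) && decide (n < 4 * t) &&
    !(decide (n = 12) && decide (t = 4))) ||
    decide (SM3_ch (i * (n + 1) / t) i * SM3_ch (n - i * (n + 1) / t) (t - i) + SM3_mv n (t - 2) ≤
      SM3_mv n t)

theorem SM3_all : ((List.range 11).all fun t => (List.range 11).all fun i =>
    (List.range 40).all fun n => SM3_ok t i n) = true := by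
  decide +kernel

theorem SM3_use (t i n : ℕ) (ht : t < 11) (hn : n < 40) (h1 : 2 ≤ i) (h2 : i + 2 ≤ t)
    (h3 : 3 * t ≤ n) (h4 : n < 4 * t) (h5 : ¬ (n = 12 ∧ t = 4)) :
    SM3_ch (i * (n + 1) / t) i * SM3_ch (n - i * (n + 1) / t) (t - i) + SM3_mv n (t - 2) ≤
      SM3_mv n t := by
  have h := SM3_all
  rw [List.all_eq_true] at h
  have ha := h t (List.mem_range.2 ht)
  rw [List.all_eq_true] at ha
  have hb := ha i (List.mem_range.2 (by omega))
  rw [List.all_eq_true] at hb
  have hc := hb n (List.mem_range.2 hn)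
  have h6 : (decide (2 ≤ i) && decide (i + 2 ≤ t) && decide (3 * t ≤ n) && decide (n < 4 * t) &&
    !(decide (n = 12) && decide (t = 4))) = true := by
    by_cases h7 : n = 12
    · have h8 : t ≠ 4 := fun h => h5 ⟨h7, h⟩
      simp [h1, h2, h3, h4, h8]
    · simp [h1, h2, h3, h4, h7]
  unfold SM3_ok at hc
  rw [h6] at hc
  simpa using hc

theorem SM3 (h : UNI_stmt) : SM3_stmt := by
  intro a b i j hi hj ht h3 h4 hne
  have h1 := h a b i j (by omega) (by omega) (by omega)
  have h2 := SM3_use (i + j) i (a + b) (by omega) (by omega) hi (by omega) h3 h4 hne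
  have e : i + j - i = j := by omega
  rw [e, SM3_ch_eq, SM3_ch_eq, SM3_mv_eq, SM3_mv_eq] at h2
  exact (Nat.add_le_add_right h1 _).trans h2

end Pool.Agent.helper37.NG
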